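import Mathlib
import Pool.Agent.MP_697cf1_co.Defs
import Pool.Agent.MP_697cf1_co.Main

open Pool.Agent.MP_697cf1_co

theorem Pool.Agent.Results.MP_697cf1_co.Q2Disproof.result (m l : ℕ) (hl : 1 ≤ l) (hml : l < m) :
    ∃ A : Set ℕ, 0 ∉ A ∧
      1 - 1 / ((l : ℝ) * ((m : ℝ) / l + 1) * ((m : ℝ) / l + 2)) < upperDensity A ∧
      ∀ B : Set ℕ, B.Infinite → ¬ (dilatedSumset m l B ⊆ A) :=
  q2 m l hl hml
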